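import Pool.Agent.helper72.ODK.Spec

/-!
# Row odk:TAW (second prover)
-/

set_option autoImplicit false

namespace Pool.Agent.helper72.UP

open Finset

theorem TAW_step (n i : ℕ) (h : n ≤ 2 * i + 1) : n.choose (i + 1) ≤ n.choose i := by
  have h1 := Nat.choose_succ_right_eq n i
  have h2 : n.choose (i + 1) * (i + 1) ≤ n.choose i * (i + 1) := by
    rw [h1]
    exact Nat.mul_le_mul_left _ (by omega)
  exact Nat.le_of_mul_le_mul_right h2 (Nat.succ_pos i)

theorem TAW_anti (n K i : ℕ) (h : n ≤ 2 * K + 1) (hi : K ≤ i) : ∀ d : ℕ, n.choose (i + d) ≤ n.choose i := by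
  intro d
  induction d with
  | zero => exact le_refl _
  | succ d ih => exact (TAW_step n (i + d) (by omega)).trans ih

theorem TAW_tel (b K : ℕ) : ∀ d : ℕ,
    ∑ i ∈ Ico K (K + d), ((b.choose (i + 1) : ℝ) - b.choose (i + 2)) = (b.choose (K + 1) : ℝ) - b.choose (K + d + 1) := by
  intro d
  induction d with
  | zero => simp
  | succ d ih =>
    rw [← Nat.add_assoc, Finset.sum_Ico_succ_top (by omega), ih]
    ring

theorem TAW : TAW_stmt := by
  intro a b K L ha hb hKL hLb
  have hterm : ∀ i, K ≤ i → 0 ≤ (b.choose (i + 1) : ℝ) - b.choose (i + 2) := by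
    intro i hi
    have h := TAW_step b (i + 1) (by omega)
    have h' : (b.choose (i + 2) : ℝ) ≤ b.choose (i + 1) := by exact_mod_cast h
    linarith
  have htel := TAW_tel b K (L + 1 - K)
  rw [show K + (L + 1 - K) = L + 1 by omega] at htel
  rw [show L + 2 = L + 1 + 1 by ring, ← htel, Finset.mul_sum]
  calc ∑ i ∈ Ico K (L + 1), (a.choose L : ℝ) * ((b.choose (i + 1) : ℝ) - b.choose (i + 2))
      ≤ ∑ i ∈ Ico K (L + 1), (a.choose i : ℝ) * ((b.choose (i + 1) : ℝ) - b.choose (i + 2)) := by
        apply Finset.sum_le_sum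
        intro i hi
        obtain ⟨h1, h2⟩ := Finset.mem_Ico.1 hi
        apply mul_le_mul_of_nonneg_right _ (hterm i h1)
        have h := TAW_anti a K i (by omega) h1 (L - i)
        rw [show i + (L - i) = L by omega] at h
        exact_mod_cast h
    _ ≤ ∑ i ∈ Ico K b, (a.choose i : ℝ) * ((b.choose (i + 1) : ℝ) - b.choose (i + 2)) := by
        apply Finset.sum_le_sum_of_subset_of_nonneg
        · exact Finset.Ico_subset_Ico_right (by omega)
        · intro i hi _
          exact mul_nonneg (Nat.cast_nonneg _) (hterm i (Finset.mem_Ico.1 hi).1)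

end Pool.Agent.helper72.UP
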